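import Mathlib
import Pool.Agent.R473.FV.Fam
import Pool.Agent.TH900.YM.Meas

/-!
# Finite-state predictors for the digits of `ζ(9), ζ(11), …, ζ(21)`

A predictor with `Q` states reads the digits of a number one after the other and predicts each next
digit from its state. If `x` is rational, that is if its digits in some (every) base are eventually
periodic, then some predictor makes only finitely many errors. By the starting file `OddZeta9To21`
one of the seven numbers `ζ(9), ζ(11), …, ζ(21)` is irrational. Here we prove: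

(1) for seven predictors, one for each number, which work in bases `b j` of their own, on prefixes of
lengths `N j` of their own, an inequality between the lengths, the numbers of states and the TOTAL
number of errors: for one `j`
`N_j log b_j ≤ (∑_{i ≤ errors} 7266^i) (1038 ∑_j (Q_j + 1) log b_j + C)`;

(2) for every `θ < 1` one of the seven numbers is such that in every base, for infinitely many
`N`, every predictor with at most `N^θ` states makes more than `((1 - θ)/63) log N` errors on the first
`N` digits.

For predictors which make no errors at all the digits are eventually periodic; the point is that the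
bounds allow about `log N` errors, also if the seven predictors, bases and lengths are different. (The
starting file `LempelZivExpansions` is on another measure: a predictor with `N^θ` states which makes
few errors may have a sequence of digits with `N^θ` phrases.)

Proof: the simultaneous measure of the starting files (`MeasureZeta9To21`, exponent `1038`) and the
general theorem `Pool.Agent.R473.FV.fam_sep`. Between two errors the automaton is autonomous and its
state runs into a cycle, which gives a rational approximation of the corresponding number; the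
approximations are combined on the common time scale `n log b`.
-/

set_option autoImplicit false

open Finset

namespace Pool.Agent.Results.MP_db0fbf_nt.FiniteStatePredictors

/-- the `i`-th digit of `x` after the point in base `b` -/
noncomputable def digit (b : ℕ) (x : ℝ) (i : ℕ) : ℤ := ⌊x * (b : ℝ) ^ i⌋ % (b : ℤ)

/-- A predictor: a finite automaton with `Q` states, transitions `δ`, initial state `q₀` and
predictions `out`. -/
structure Predictor where
  /-- the number of states -/
  Q : ℕ
  /-- the next state -/
  δ : Fin Q → ℤ → Fin Q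
  /-- the initial state -/
  q₀ : Fin Q
  /-- the prediction -/
  out : Fin Q → ℤ

/-- the state of the predictor after it has read `d 1, …, d n` -/
def Predictor.state (M : Predictor) (d : ℕ → ℤ) : ℕ → Fin M.Q
  | 0 => M.q₀
  | n + 1 => M.δ (M.state d n) (d (n + 1))

/-- the number of errors on the first `N` terms of `d`: the number of `n < N` such that the
prediction made after reading `d 1, …, d n` is not `d (n + 1)` -/
def Predictor.errors (M : Predictor) (d : ℕ → ℤ) (N : ℕ) : ℕ :=
  ((range N).filter fun n => M.out (M.state d n) ≠ d (n + 1)).card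

/-- the odd numbers from `9` to `21` -/
def T : Finset ℕ := {9, 11, 13, 15, 17, 19, 21}

/-- `ζ(i) = ∑ 1/(n+1)^i` -/
noncomputable def zeta (i : ℕ) : ℝ := ∑' n : ℕ, 1 / ((n : ℝ) + 1) ^ i

theorem T_card : T.card = 7 := by decide

theorem log_num : 7 * Real.log ((7 : ℝ) * 1038) < 63 := by
  suffices h : Real.log ((7 : ℝ) * 1038) < 9 by
    generalize Real.log (7 * 1038) = t at h ⊢
    linarith
  rw [Real.log_lt_iff_lt_exp (by positivity)]
  have h2 : Real.exp 9 = Real.exp 1 ^ 9 := by
    rw [← Real.exp_nat_mul]
    norm_num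
  rw [h2]
  have h3 := Real.exp_one_gt_d9
  calc (7 * 1038 : ℝ) < 2.7182818283 ^ 9 := by norm_num
    _ ≤ _ := pow_le_pow_left₀ (by norm_num) h3.le 9

theorem state_eq (M : Predictor) (d : ℕ → ℤ) (n : ℕ) :
    M.state d n = Pool.Agent.R473.FP.run M.δ M.q₀ d n := by
  induction n with
  | zero => rfl
  | succ n ih => simp only [Predictor.state, Pool.Agent.R473.FP.run, ih]

/-- the simultaneous measure of the starting files -/
theorem meas : ∃ c : ℝ, 0 < c ∧ ∀ q : ℕ, 1 ≤ q → ∀ p : ℕ → ℤ,
    ∃ j ∈ T, c ≤ (q : ℝ) ^ ((1038 : ℝ) - 1) * |(q : ℝ) * zeta j - p j| := by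
  obtain ⟨c, hc, hmeas⟩ := Pool.Agent.TH900.YM.measure
  refine ⟨c, hc, fun q hq p => ?_⟩
  obtain ⟨j, hj, h1⟩ := hmeas p q hq
  refine ⟨j, hj, ?_⟩
  have hq0 : (0 : ℝ) < q := by exact_mod_cast hq
  have e1 : (q : ℝ) ^ ((1038 : ℝ) - 1) = (q : ℝ) ^ 1037 := by
    rw [← Real.rpow_natCast]
    norm_num
  have e2 : |(q : ℝ) * zeta j - p j| = q * |zeta j - (p j : ℝ) / q| := by
    rw [← abs_of_pos hq0, ← abs_mul, abs_of_pos hq0]
    congr 1
    field_simp
  have h2 : c / (q : ℝ) ^ 1038 ≤ |zeta j - (p j : ℝ) / q| := h1
  rw [div_le_iff₀ (by positivity)] at h2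
  rw [e1, e2]
  calc c ≤ |zeta j - (p j : ℝ) / q| * (q : ℝ) ^ 1038 := h2
    _ = (q : ℝ) ^ 1037 * (q * |zeta j - (p j : ℝ) / q|) := by ring

/-- **Predicting the digits of `ζ(9), …, ζ(21)`.** -/
theorem result :
    -- (1) for each of the numbers a base, a predictor and a length
    (∃ C : ℝ, ∀ (b : ℕ → ℕ) (M : ℕ → Predictor) (N : ℕ → ℕ), (∀ j ∈ T, 2 ≤ b j) →
      ∃ j ∈ T, N j * Real.log (b j) ≤
        (∑ i ∈ range (∑ j ∈ T, (M j).errors (digit (b j) (zeta j)) (N j) + 1), (7266 : ℝ) ^ i) *
          (1038 * ∑ j ∈ T, (((M j).Q : ℝ) + 1) * Real.log (b j) + C)) ∧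
    -- (2) one of the numbers is hard for all predictors in all bases
    (∀ θ : ℝ, 0 ≤ θ → θ < 1 → ∃ j ∈ T, ∀ b : ℕ, 2 ≤ b → ∀ N₀ : ℕ, ∃ N : ℕ, N₀ ≤ N ∧
      ∀ M : Predictor, (M.Q : ℝ) ≤ (N : ℝ) ^ θ →
        (1 - θ) / 63 * Real.log N < M.errors (digit b (zeta j)) N) := by
  obtain ⟨c, hc, hM⟩ := meas
  refine ⟨⟨Real.log 2 + |Real.log c|, fun b M N hb => ?_⟩, fun θ h0 h1 => ?_⟩
  · obtain ⟨j, hj, h⟩ := Pool.Agent.R473.FV.fam_sep T zeta 1038 c (by norm_num) hc hM b hb
      (fun j => (M j).Q) (fun j => (M j).δ) (fun j => (M j).q₀) (fun j => (M j).out) N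
    refine ⟨j, hj, ?_⟩
    rw [T_card] at h
    have e : ((7 : ℕ) : ℝ) * 1038 = 7266 := by norm_num
    rw [e] at h
    have e2 : ∀ i, (M i).errors (digit (b i) (zeta i)) (N i) =
        Pool.Agent.R473.FP.errors (M i).δ (M i).q₀ (M i).out
          (Pool.Agent.H831R3.LC.dig (zeta i) (b i)) (N i) := by
      intro i
      unfold Predictor.errors
      simp only [state_eq]
      rfl
    simp only [e2]
    exact h
  · have h2 : 0 < 1 - θ := by linarith
    obtain ⟨j, hj, h⟩ := Pool.Agent.R473.FV.fam_hard T zeta 1038 c (by norm_num) hc hM θ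
      ((1 - θ) / 63) h0 (by positivity) (by
        rw [T_card, div_mul_eq_mul_div, div_lt_iff₀ (by norm_num)]
        push_cast
        exact mul_lt_mul_of_pos_left log_num h2)
    refine ⟨j, hj, fun b hb N₀ => ?_⟩
    obtain ⟨N, hN, h4⟩ := h b hb N₀
    refine ⟨N, hN, fun M hQ => ?_⟩
    have h5 := h4 M.Q M.δ M.q₀ M.out hQ
    have e2 : M.errors (digit b (zeta j)) N =
        Pool.Agent.R473.FP.errors M.δ M.q₀ M.out (Pool.Agent.H831R3.LC.dig (zeta j) b) N := by
      unfold Predictor.errors
      simp only [state_eq]
      rfl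
    rw [e2]
    exact h5

end Pool.Agent.Results.MP_db0fbf_nt.FiniteStatePredictors
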