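import Mathlib
import Pool.Agent.R701.LV.Liou
import Pool.Agent.K6.H69.ZM.Meas
import Pool.Agent.K6.H69.QL.Quant

/-!
# The numbers `ζ(7), ζ(9), ζ(11), ζ(13)` and well approximable numbers

**Theorem 1.** If `κ > 2583 d` and the real number `ξ` has rational approximations `a / b` with error at most
`b ^ (-κ)` and arbitrarily large `b`, then the four numbers are not all of the form `A (ξ) / B (ξ)` with integer
polynomials of degree at most `d` and a common denominator `B`. (For `d = 0` and rational `ξ` this is the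
irrationality of one of the four numbers.) So for a Liouville number `ξ` they are not all in `ℚ(ξ)`. More
generally:

Let `q_0, q_1, …` be integers `≥ 2`. A real number `x` is *approximable* if for some `h` and every `κ` there
are, for all large `k`, integers `u` and `1 ≤ v ≤ q_k ^ h` with `|x - u / v| ≤ q_k ^ (-κ)`. The approximable
numbers form a field. Every Liouville number is approximable for some sequence; for `q_k = 2 ^ ((k + 2)!)` the
field has transcendence degree the cardinality of the continuum.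

**Theorem 2.** For every sequence one of the four numbers `ζ(7), ζ(9), ζ(11), ζ(13)` is not approximable. In
particular, for every Liouville number `ξ` one of them is not in `ℚ(ξ)`.

Theorem 2 is the analogue of the starting file `LiouvilleFields` (the seven numbers `ζ(9), …, ζ(21)`) for four numbers;
neither contains the other. Theorem 1 is new (`K6/H69/QL`). The general theorem on families with a simultaneous measure is the starting
`Pool.Agent.R701.LV.family` (for Theorem 2); the measure for the four numbers is the one of `MeasureZeta7To13`.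
-/

set_option autoImplicit false

namespace Pool.Agent.Results.MP_db0fbf_nt.LiouvilleZeta7To13

open Polynomial

/-- There are rational numbers `a / b` with arbitrarily large `b` and `|ξ - a / b| ≤ b ^ (-κ)`. -/
def WellApproximable (κ : ℕ) (ξ : ℝ) : Prop :=
  ∀ H : ℕ, ∃ (a : ℤ) (b : ℕ), H ≤ b ∧ 1 ≤ b ∧ |ξ - (a : ℝ) / b| ≤ 1 / (b : ℝ) ^ κ

/-- For some `h` and every `κ`, for all large `k`, there are integers `u` and `1 ≤ v ≤ (q k) ^ h` with
`|x - u / v| ≤ (q k) ^ (-κ)`. -/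
def Approximable (q : ℕ → ℕ) (x : ℝ) : Prop :=
  ∃ h : ℕ, ∀ κ : ℕ, ∃ k₀ : ℕ, ∀ k ≥ k₀, ∃ (u : ℤ) (v : ℕ), 1 ≤ v ∧ v ≤ q k ^ h ∧
    |x - (u : ℝ) / v| ≤ (((q k : ℕ) : ℝ) ^ κ)⁻¹

/-- The value `ζ(j)`, for `j ≥ 2`. -/
noncomputable def zetaValue (j : ℕ) : ℝ := ∑' n : ℕ, 1 / ((n : ℝ) + 1) ^ j

/-- One of `ζ(7), ζ(9), ζ(11), ζ(13)` is not in `L`. -/
def Avoids (L : IntermediateField ℚ ℝ) : Prop :=
  ∃ j : ℕ, Odd j ∧ 7 ≤ j ∧ j ≤ 13 ∧ zetaValue j ∉ L

/-- The sequence `2 ^ ((k + 2)!)`. -/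
def q₀ (k : ℕ) : ℕ := 2 ^ (k + 2).factorial

/-- If `κ > 2583 d` and `ξ` has infinitely many rational approximations of order `κ` then not all the numbers
`ζ(7), ζ(9), ζ(11), ζ(13)` are quotients `A (ξ) / B (ξ)` with polynomials of degree at most `d`.
Let `q_k ≥ 2` be integers. The approximable numbers form a field which does not contain all the numbers
`ζ(7), ζ(9), ζ(11), ζ(13)`. For every Liouville number `ξ` not all these numbers are in `ℚ(ξ)`. For
`q_k = 2 ^ ((k + 2)!)` the field of the approximable numbers has transcendence degree continuum. -/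
theorem result :
    (∀ (d κ : ℕ) (ξ : ℝ), 2583 * d < κ → WellApproximable κ ξ → ∀ (A : ℕ → ℤ[X]) (B : ℤ[X]),
      (∀ j, (A j).natDegree ≤ d) → B.natDegree ≤ d → aeval ξ B ≠ 0 →
      ∃ j : ℕ, Odd j ∧ 7 ≤ j ∧ j ≤ 13 ∧ zetaValue j ≠ aeval ξ (A j) / aeval ξ B) ∧
    (∀ q : ℕ → ℕ, (∀ k, 2 ≤ q k) →
      ∃ L : IntermediateField ℚ ℝ, (∀ x, x ∈ L ↔ Approximable q x) ∧ Avoids L) ∧
    (∀ ξ : ℝ, Liouville ξ → Avoids (IntermediateField.adjoin ℚ {ξ})) ∧
    (∃ L : IntermediateField ℚ ℝ, (∀ x, x ∈ L ↔ Approximable q₀ x) ∧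
      Algebra.trdeg ℚ L = Cardinal.continuum ∧ Avoids L) := by
  classical
  obtain ⟨c, hc, hm⟩ := Pool.Agent.K6.H69.ZM.measure
  set S : Finset ℕ := {7, 9, 11, 13} with hS
  have key : ∀ (a : S → ℤ) (b : ℕ), 0 < b →
      ∃ i : S, c / (b : ℝ) ^ 2583 ≤ |zetaValue (i : ℕ) - a i / b| := by
    intro a b hb
    obtain ⟨j, hj, h1⟩ := hm (fun j => if h : j ∈ S then a ⟨j, h⟩ else 0) b hb
    refine ⟨⟨j, hj⟩, ?_⟩
    rw [dif_pos hj] at h1
    exact h1
  have conv : ∀ L : IntermediateField ℚ ℝ, (∃ i : S, zetaValue (i : ℕ) ∉ L) → Avoids L := by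
    rintro L ⟨⟨j, hj⟩, h⟩
    refine ⟨j, ?_, ?_, ?_, h⟩
    · fin_cases hj <;> decide
    · fin_cases hj <;> decide
    · fin_cases hj <;> decide
  have first : ∀ (d κ : ℕ) (ξ : ℝ), 2583 * d < κ → WellApproximable κ ξ →
      ∀ (A : ℕ → ℤ[X]) (B : ℤ[X]),
      (∀ j, (A j).natDegree ≤ d) → B.natDegree ≤ d → aeval ξ B ≠ 0 →
      ∃ j : ℕ, Odd j ∧ 7 ≤ j ∧ j ≤ 13 ∧ zetaValue j ≠ aeval ξ (A j) / aeval ξ B := by
    intro d κ ξ hκ hξ A B hA hB hB0
    obtain ⟨⟨j, hj⟩, h⟩ := Pool.Agent.K6.H69.QL.quant (fun i : S => zetaValue (i : ℕ)) c hc 2583 key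
      d κ hκ ξ hξ (fun i => A (i : ℕ)) B (fun i => hA _) hB hB0
    refine ⟨j, ?_, ?_, ?_, h⟩
    · fin_cases hj <;> decide
    · fin_cases hj <;> decide
    · fin_cases hj <;> decide
  obtain ⟨h1, h2, L, h3, h4, h5⟩ :=
    Pool.Agent.R701.LV.family (fun i : S => zetaValue (i : ℕ)) c hc 2583 key
  refine ⟨first, fun q hq => ?_, fun ξ hξ => conv _ (h2 ξ hξ), L, h3, h4, conv _ h5⟩
  obtain ⟨L', h6, h7⟩ := h1 q hq
  exact ⟨L', h6, conv _ h7⟩

end Pool.Agent.Results.MP_db0fbf_nt.LiouvilleZeta7To13
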