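import Pool.Agent.K6.H69.ZM.Meas

/-!
# A simultaneous measure for the four numbers `ζ(7), ζ(9), ζ(11), ζ(13)`

Rational numbers with a common denominator `q` cannot approximate all the four numbers with an error below
`c q^(-2583)`. This is the quantitative form of the theorem of helper73 (`OddZeta7To13`: one of the four numbers is
irrational). The measure in the starting file `MeasureZeta9To21` is for the seven numbers `ζ(9), …, ζ(21)`.

The proof (`Pool/Agent/K6/H69/ZM`) follows the starting library `Pool/Agent/TH900/XM` (the measure for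
`ζ(11), …, ζ(27)`) on top of the library `Pool/Agent/K6/H73/Z7` of helper73: the Hankel determinants of size
`25 (n - 1)` are applied to the rational numbers `a j / q` themselves;

* the functional `N(Q)` with `ζ(j)` replaced by `a j / q` differs from the series by `∑ ρ_i (ζ(i+4) - u_i)`, and
  `|ρ_i|` is bounded by interpolation of the numerator at points of the two contours;
* the determinant does not vanish if the prime `n` satisfies `n^7 ∤ q`; such a prime exists between
  `2.87 log q` and `4.013 log q` by the prime number theorem in the class `1` modulo `24`;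
* the `p`-adic bounds of `Z7` hold for arbitrary rational numbers with common denominator `q`.
-/

namespace Pool.Agent.Results.MP_db0fbf_nt.MeasureZeta7To13

/-- There is `c > 0` such that for all integers `a j` and `q ≥ 1` there is an odd `j`, `7 ≤ j ≤ 13`, with
`|ζ(j) - a j / q| ≥ c q^(-2583)`, where `ζ(j) = ∑ 1/(n+1)^j`. -/
theorem result : ∃ c : ℝ, 0 < c ∧ ∀ (a : ℕ → ℤ) (q : ℕ), 0 < q → ∃ j : ℕ, Odd j ∧ 7 ≤ j ∧ j ≤ 13 ∧
    c / (q : ℝ) ^ 2583 ≤ |(∑' n : ℕ, 1 / ((n : ℝ) + 1) ^ j) - (a j : ℝ) / q| := by
  obtain ⟨c, hc, h⟩ := Pool.Agent.K6.H69.ZM.measure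
  refine ⟨c, hc, fun a q hq => ?_⟩
  obtain ⟨j, hj, h1⟩ := h a q hq
  refine ⟨j, ?_, ?_, ?_, h1⟩
  · fin_cases hj <;> decide
  · fin_cases hj <;> decide
  · fin_cases hj <;> decide

end Pool.Agent.Results.MP_db0fbf_nt.MeasureZeta7To13
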